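import Mathlib

/-!
# Project NX: fractional powers with non-integer exponents (definitions)
-/

set_option autoImplicit false

open Finset
open scoped BigOperators ComplexConjugate

namespace Pool.Agent.Helper57.NX

noncomputable section

/-- `e t = exp (2 π i t)` -/
def e (t : ℝ) : ℂ := Complex.exp (2 * Real.pi * t * Complex.I)

/-- Forward average `A L f x = 𝔼_{a<L} f (x+a)`. -/
def A {N : ℕ} (L : ℕ) (f : ZMod N → ℂ) (x : ZMod N) : ℂ := 𝔼 a ∈ range L, f (x + (a : ZMod N))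

/-- Backward average `Ab L f x = 𝔼_{a<L} f (x-a)`. -/
def Ab {N : ℕ} (L : ℕ) (f : ZMod N → ℂ) (x : ZMod N) : ℂ := 𝔼 a ∈ range L, f (x - (a : ZMod N))

/-- The `L¹` norm on `ZMod N`. -/
def nrm {N : ℕ} [NeZero N] (f : ZMod N → ℂ) : ℝ := 𝔼 x, ‖f x‖

/-- Variation at most `B` per interval of length `X`: for every interval of length `l` the total
variation is at most `B (l/X + 1)`. -/
def TV {N : ℕ} (B X : ℝ) (f : ZMod N → ℂ) : Prop :=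
  ∀ (x : ZMod N) (l : ℕ),
    ∑ j ∈ range l, ‖f (x + (j : ZMod N) + 1) - f (x + (j : ZMod N))‖ ≤ B * (l / X + 1)

/-- Admissible functions: bounded by `1`, variation bounded by `B` at scale `X`. -/
structure Adm {N : ℕ} (B X : ℝ) (f : ZMod N → ℂ) : Prop where
  bdd : ∀ x, ‖f x‖ ≤ 1
  tv : TV B X f

/-- A system with `m` sequences `a i k = ⌊P i * ((k+ρ)/D)^(c i)⌋`, `k ∈ [u, u+T)`. -/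
structure Sys (m : ℕ) where
  D : ℝ
  ρ : ℝ
  Q : ℕ
  u : ℕ
  T : ℕ
  P : Fin m → ℝ

namespace Sys
variable {m : ℕ}

/-- the scaled variable `t = (k+ρ)/D` -/
def t (S : Sys m) (k : ℕ) : ℝ := ((k : ℝ) + S.ρ) / S.D

/-- the sequences -/
def a (S : Sys m) (c : Fin m → ℝ) (i : Fin m) (k : ℕ) : ℤ := ⌊S.P i * (S.t k) ^ (c i)⌋

/-- the interval of `k`'s -/
def I (S : Sys m) : Finset ℕ := Ico S.u (S.u + S.T)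

/-- forget the last sequence -/
def init {m : ℕ} (S : Sys (m + 1)) : Sys m := ⟨S.D, S.ρ, S.Q, S.u, S.T, fun i => S.P i.castSucc⟩

/-- change the interval -/
def sub (S : Sys m) (u T : ℕ) : Sys m := ⟨S.D, S.ρ, S.Q, u, T, S.P⟩

end Sys

/-- Size conditions of a system (with slack `D^x`). -/
structure Good {m : ℕ} (S : Sys m) (c : Fin m → ℝ) (N : ℕ) (x : ℝ) : Prop where
  ρ0 : 0 ≤ S.ρ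
  ρ1 : S.ρ ≤ 1
  Q1 : S.D ^ (2 : ℝ) ≤ S.Q
  Q2 : (S.Q : ℝ) ≤ S.D ^ (3 : ℝ)
  P1 : ∀ i, S.Q * S.D ^ (c i - x) ≤ S.P i
  P2 : ∀ i, S.P i ≤ S.Q * S.D ^ (c i + x)
  N1 : ∀ i, S.P i ≤ N * S.D ^ x
  N2 : (S.Q : ℝ) ≤ N
  u1 : S.D ≤ S.u
  u2 : (S.u : ℝ) + S.T ≤ 2 * S.D
  T1 : S.D ^ (1 - x) ≤ S.T

/-- The multilinear form `𝔼_{k∈I} h(k) 𝔼_x f0(x) ∏_i f_i(x + a_i(k))`. -/
def form {m N : ℕ} [NeZero N] (S : Sys m) (c : Fin m → ℝ) (h : ℕ → ℂ)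
    (f0 : ZMod N → ℂ) (f : Fin m → ZMod N → ℂ) : ℂ :=
  𝔼 k ∈ S.I, h k * 𝔼 x : ZMod N, f0 x * ∏ i, f i (x + (S.a c i k : ZMod N))

/-- Block phases: on the `j`-th block of length `X` (counted from `r`) the function is
`c j * e (φ j * v)`, `v` the position relative to `r`. -/
def bphase {N : ℕ} (X : ℕ) (r : ZMod N) (c : ℕ → ℂ) (φ : ℕ → ℝ) (x : ZMod N) : ℂ :=
  c ((x - r).val / X) * e (φ ((x - r).val / X) * ((x - r).val : ℝ))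

/-! ### box norms -/

/-- `z` or its conjugate, according to the parity of `ω`. -/
def cjj {k : ℕ} (ω : Fin k → Bool) (z : ℂ) : ℂ :=
  if Even (#(univ.filter fun i => ω i = true)) then z else conj z

/-- choose `b i` where `ω i`, else `a i` -/
def sel {k : ℕ} {α : Type} (ω : Fin k → Bool) (a b : Fin k → α) : Fin k → α :=
  fun i => if ω i then b i else a i

/-- sum of the coordinates -/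
def tot {k : ℕ} (a : Fin k → ℕ) : ℕ := ∑ i, a i

/-- `cube f a b x = ∏_ω C^{|ω|} f (x + ∑_i (a_i or b_i))` -/
def cube {N k : ℕ} (f : ZMod N → ℂ) (a b : Fin k → ℕ) (x : ZMod N) : ℂ :=
  ∏ ω : Fin k → Bool, cjj ω (f (x + (tot (sel ω a b) : ZMod N)))

/-- the box `[0,X)^k` -/
def boxset (k X : ℕ) : Finset (Fin k → ℕ) := Fintype.piFinset fun _ => range X

/-- box norm (to the power `2^k`) with `k` directions of length `X` -/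
def Box {N : ℕ} [NeZero N] (k X : ℕ) (f : ZMod N → ℂ) : ℝ :=
  (𝔼 a ∈ boxset k X, 𝔼 b ∈ boxset k X, 𝔼 x : ZMod N, cube f a b x).re

/-- dual function at position `i` -/
def dual {m N : ℕ} [NeZero N] (S : Sys m) (c : Fin m → ℝ) (h : ℕ → ℂ) (f0 : ZMod N → ℂ)
    (f : Fin m → ZMod N → ℂ) (i : Fin m) (x : ZMod N) : ℂ :=
  𝔼 k ∈ S.I, h k * (f0 (x - (S.a c i k : ZMod N)) *
    ∏ j ∈ univ.erase i, f j (x - (S.a c i k : ZMod N) + (S.a c j k : ZMod N)))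

/-- the two-dimensional local box norm at scale `X` -/
def U2 {N : ℕ} [NeZero N] (X : ℕ) (v : ZMod N → ℂ) : ℝ :=
  (𝔼 x : ZMod N, 𝔼 z ∈ range X, 𝔼 z' ∈ range X, 𝔼 y ∈ range X, 𝔼 y' ∈ range X,
    v (x + (z : ZMod N) + (y : ZMod N)) * conj (v (x + (z : ZMod N) + (y' : ZMod N))) *
    conj (v (x + (z' : ZMod N) + (y : ZMod N))) * v (x + (z' : ZMod N) + (y' : ZMod N))).re

/-! ### PET: the abstract elimination process -/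

/-- the next list: all `p - q` and `τ_h p - q`, without the negligible ones (`∈ V R`) -/
def petNext {Φ : Type} [AddCommGroup Φ] (V : ℕ → AddSubgroup Φ) (τ : ℕ → Φ →+ Φ) (R : ℕ) (q : Φ)
    (h : ℕ) (Q : List Φ) : List Φ := by
  classical exact (Q.map (fun p => p - q) ++ Q.map (fun p => τ h p - q)).filter (fun p => p ∉ V R)

/-- `Steps ν Q`: the elimination process can be finished in at most `ν` steps -/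
def Steps {Φ : Type} [AddCommGroup Φ] (V : ℕ → AddSubgroup Φ) (τ : ℕ → Φ →+ Φ) (R : ℕ) :
    ℕ → List Φ → Prop
  | 0, Q => Q = []
  | ν + 1, Q => Q = [] ∨ ∃ q ∈ Q, ∀ h, Steps V τ R ν (petNext V τ R q h Q)

/-! ### the statements of the induction -/

/-- `U` at level `m` : a large form implies that every `f i` has large averages. -/
def UP (m : ℕ) (c : Fin m → ℝ) (ε : ℝ) : Prop :=
  ∃ x0 : ℝ, 0 < x0 ∧ ∃ C : ℕ, ∃ σ : ℝ, 0 < σ ∧ ∃ D0 : ℝ,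
  ∀ (S : Sys m) (N : ℕ) [NeZero N], D0 ≤ S.D → Good S c N x0 →
  ∀ δ : ℝ, S.D ^ (-σ) ≤ δ → δ ≤ 1 / 2 →
  ∀ (f0 : ZMod N → ℂ) (f : Fin m → ZMod N → ℂ),
  Adm δ⁻¹ S.Q f0 → (∀ i, Adm δ⁻¹ S.Q (f i)) →
  δ ≤ ‖form S c 1 f0 f‖ →
  ∀ i, ∀ L : ℕ, 1 ≤ L → (L : ℝ) ≤ S.P i * S.D ^ (-ε) → δ ^ C ≤ nrm (A L (f i))

/-- `D` at level `m` : with arbitrary weights `h`. -/
def DP (m : ℕ) (c : Fin m → ℝ) (ε : ℝ) : Prop :=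
  ∃ x0 : ℝ, 0 < x0 ∧ ∃ C : ℕ, ∃ σ : ℝ, 0 < σ ∧ ∃ D0 : ℝ,
  ∀ (S : Sys m) (N : ℕ) [NeZero N], D0 ≤ S.D → Good S c N x0 →
  ∀ δ : ℝ, S.D ^ (-σ) ≤ δ → δ ≤ 1 / 2 →
  ∀ (h : ℕ → ℂ) (f0 : ZMod N → ℂ) (f : Fin m → ZMod N → ℂ),
  (∀ k, ‖h k‖ ≤ 1) → Adm δ⁻¹ S.Q f0 → (∀ i, Adm δ⁻¹ S.Q (f i)) →
  δ ≤ ‖form S c h f0 f‖ →
  ∃ θ : Fin m → ℝ, (∀ i, |θ i| ≤ δ⁻¹ ^ C / S.Q) ∧
    ∀ K : ℕ, 1 ≤ K → (K : ℝ) ≤ S.D ^ (1 - ε) →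
      δ ^ C ≤ 𝔼 k ∈ S.I, ‖𝔼 j ∈ range K, h (k + j) * e (∑ i, θ i * S.P i * (S.t (k + j)) ^ (c i))‖

/-- the top function is smooth at scale `Q D^s`: conclusion of `U` for the top function -/
def TopP (m : ℕ) (c : Fin (m + 1) → ℝ) (s ε : ℝ) : Prop :=
  ∃ x0 : ℝ, 0 < x0 ∧ ∃ C : ℕ, ∃ σ : ℝ, 0 < σ ∧ ∃ D0 : ℝ,
  ∀ (S : Sys (m + 1)) (N : ℕ) [NeZero N], D0 ≤ S.D → Good S c N x0 →
  ∀ δ : ℝ, S.D ^ (-σ) ≤ δ → δ ≤ 1 / 2 →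
  ∀ X : ℝ, (S.Q : ℝ) ≤ X → S.Q * S.D ^ (s - σ) ≤ X →
  ∀ (f0 : ZMod N → ℂ) (f : Fin (m + 1) → ZMod N → ℂ),
  Adm δ⁻¹ S.Q f0 → (∀ i, Adm δ⁻¹ S.Q (f i)) → Adm δ⁻¹ X (f (Fin.last m)) →
  δ ≤ ‖form S c 1 f0 f‖ →
  ∀ L : ℕ, 1 ≤ L → (L : ℝ) ≤ S.P (Fin.last m) * S.D ^ (-ε) → δ ^ C ≤ nrm (A L (f (Fin.last m)))

/-- the top function is smooth at scale `Q D^s`: conclusion of `U` for all functions -/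
def UsP (m : ℕ) (c : Fin (m + 1) → ℝ) (s ε : ℝ) : Prop :=
  ∃ x0 : ℝ, 0 < x0 ∧ ∃ C : ℕ, ∃ σ : ℝ, 0 < σ ∧ ∃ D0 : ℝ,
  ∀ (S : Sys (m + 1)) (N : ℕ) [NeZero N], D0 ≤ S.D → Good S c N x0 →
  ∀ δ : ℝ, S.D ^ (-σ) ≤ δ → δ ≤ 1 / 2 →
  ∀ X : ℝ, (S.Q : ℝ) ≤ X → S.Q * S.D ^ (s - σ) ≤ X →
  ∀ (f0 : ZMod N → ℂ) (f : Fin (m + 1) → ZMod N → ℂ),
  Adm δ⁻¹ S.Q f0 → (∀ i, Adm δ⁻¹ S.Q (f i)) → Adm δ⁻¹ X (f (Fin.last m)) →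
  δ ≤ ‖form S c 1 f0 f‖ →
  ∀ i, ∀ L : ℕ, 1 ≤ L → (L : ℝ) ≤ S.P i * S.D ^ (-ε) → δ ^ C ≤ nrm (A L (f i))

/-- the top function is smooth at scale `X ≈ Q D^s`: conclusion of `D` -/
def DsP (m : ℕ) (c : Fin (m + 1) → ℝ) (s ε : ℝ) : Prop :=
  ∃ x0 : ℝ, 0 < x0 ∧ ∃ C : ℕ, ∃ σ : ℝ, 0 < σ ∧ ∃ D0 : ℝ,
  ∀ (S : Sys (m + 1)) (N : ℕ) [NeZero N], D0 ≤ S.D → Good S c N x0 →
  ∀ δ : ℝ, S.D ^ (-σ) ≤ δ → δ ≤ 1 / 2 →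
  ∀ X : ℝ, (S.Q : ℝ) ≤ X → S.Q * S.D ^ (s - σ) ≤ X → X ≤ S.Q * S.D ^ s →
  ∀ (h : ℕ → ℂ) (f0 : ZMod N → ℂ) (f : Fin (m + 1) → ZMod N → ℂ),
  (∀ k, ‖h k‖ ≤ 1) → Adm δ⁻¹ S.Q f0 → (∀ i, Adm δ⁻¹ S.Q (f i)) →
  Adm δ⁻¹ X (f (Fin.last m)) →
  δ ≤ ‖form S c h f0 f‖ →
  ∃ θ : Fin (m + 1) → ℝ, (∀ i, |θ i| ≤ δ⁻¹ ^ C / S.Q) ∧ |θ (Fin.last m)| ≤ δ⁻¹ ^ C / X ∧
    ∀ K : ℕ, 1 ≤ K → (K : ℝ) ≤ S.D ^ (1 - ε) →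
      δ ^ C ≤ 𝔼 k ∈ S.I, ‖𝔼 j ∈ range K, h (k + j) * e (∑ i, θ i * S.P i * (S.t (k + j)) ^ (c i))‖

/-- block phases with large frequencies have a small form -/
def LPP (m : ℕ) (c : Fin (m + 1) → ℝ) (s : ℝ) : Prop :=
  ∃ x0 : ℝ, 0 < x0 ∧ ∃ C : ℕ, ∃ σ : ℝ, 0 < σ ∧ ∃ D0 : ℝ,
  ∀ (S : Sys (m + 1)) (N : ℕ) [NeZero N], D0 ≤ S.D → Good S c N x0 →
  ∀ δ : ℝ, S.D ^ (-σ) ≤ δ → δ ≤ 1 / 2 →
  ∀ X : ℕ, S.Q ≤ X → S.Q * S.D ^ (s - σ) ≤ (X : ℝ) → (X : ℝ) ≤ S.Q * S.D ^ s →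
  ∀ (f0 : ZMod N → ℂ) (f : Fin m → ZMod N → ℂ),
  Adm δ⁻¹ S.Q f0 → (∀ i, Adm δ⁻¹ S.Q (f i)) →
  ∀ (r : ZMod N) (cc : ℕ → ℂ) (φ : ℕ → ℝ), (∀ j, ‖cc j‖ ≤ 1) → (∀ j, |φ j| ≤ δ⁻¹ / S.Q) →
  (∀ j, cc j ≠ 0 → δ⁻¹ ^ C / X ≤ |φ j|) →
  ‖form S c 1 f0 (Fin.snoc (α := fun _ => ZMod N → ℂ) f (bphase X r cc φ))‖ < δ

/-- the generalised von Neumann theorem: smoothness `Q D^s` gives a box norm at scale `Q D^s'` -/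
def GNCP (m : ℕ) (c : Fin (m + 1) → ℝ) (s s' : ℝ) : Prop :=
  ∃ x0 : ℝ, 0 < x0 ∧ ∃ r C : ℕ, ∃ σ : ℝ, 0 < σ ∧ ∃ D0 : ℝ,
  ∀ (S : Sys (m + 1)) (N : ℕ) [NeZero N], D0 ≤ S.D → Good S c N x0 →
  ∀ δ : ℝ, S.D ^ (-σ) ≤ δ → δ ≤ 1 / 2 →
  ∀ X : ℝ, (S.Q : ℝ) ≤ X → S.Q * S.D ^ (s - σ) ≤ X →
  ∀ (f0 : ZMod N → ℂ) (f : Fin (m + 1) → ZMod N → ℂ),
  Adm δ⁻¹ S.Q f0 → (∀ i, Adm δ⁻¹ S.Q (f i)) → Adm δ⁻¹ X (f (Fin.last m)) →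
  δ ≤ ‖form S c 1 f0 f‖ →
  ∀ X1 : ℕ, 1 ≤ X1 → (X1 : ℝ) ≤ S.Q * S.D ^ s' → δ ^ C ≤ Box r X1 (f (Fin.last m))

/-- The exponential sum estimate (exponents distinct and not natural numbers). -/
def ES0 : Prop :=
  ∀ (m d : ℕ) (γ : Fin m → ℝ), Function.Injective γ → (∀ i (n : ℕ), γ i ≠ n) →
  ∀ (Λ a ε : ℝ), 1 ≤ Λ → 0 < ε →
  ∃ x0 : ℝ, 0 < x0 ∧ ∃ σ : ℝ, 0 < σ ∧ ∃ D0 : ℝ, ∀ D : ℝ, D0 ≤ D → ∀ ρ : ℝ, 0 ≤ ρ → ρ ≤ 1 →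
  ∀ v : Fin m → ℝ, (∀ i, |v i| ≤ D ^ a) → (∃ i, D ^ ε ≤ |v i|) →
  ∀ p : Polynomial ℝ, p.natDegree ≤ d →
  ∀ u T : ℕ, D ≤ u → (u : ℝ) + T ≤ Λ * D → D ^ (1 - x0) ≤ T →
  ‖𝔼 k ∈ Ico u (u + T), e (∑ i, v i * (((k : ℝ) + ρ) / D) ^ (γ i) + p.eval (k : ℝ))‖ ≤ D ^ (-σ)

end

end Pool.Agent.Helper57.NX
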