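import Pool.Agent.Helper57.NX.Defs

/-!
# Project NX: more definitions (degree lowering, base)
-/

set_option autoImplicit false

open Finset
open scoped BigOperators ComplexConjugate

namespace Pool.Agent.Helper57.NX

noncomputable section

/-- sign of `ω` -/
def sg {k : ℕ} (ω : Fin k → Bool) : ℝ := if Even (#(univ.filter fun i => ω i = true)) then 1 else -1

/-- `Ψ = -∑_{ω ≠ 0} (-1)^{|ω|} θ (a_ω, b, j)` where `a_ω` takes the coordinates in `ω` from `a'` -/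
def psiSum {k : ℕ} (θ : (Fin k → ℕ) → (Fin k → ℕ) → ℕ → ℝ) (a' a b : Fin k → ℕ) (j : ℕ) : ℝ :=
  - ∑ ω ∈ univ.erase (fun _ : Fin k => false), sg ω * θ (sel ω a a') b j

/-- Abstract hypothesis of the degree lowering: the cubes of `F n` have a small form against block
phases (blocks of length `X`) with all frequencies `≥ V` (and `≤ U`). -/
def LPh {N : ℕ} [NeZero N] {ι : Type} (Ω : Finset ι) (F : ι → ZMod N → ℂ) (k X' X : ℕ)
    (U V η : ℝ) : Prop :=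
  ∀ a ∈ boxset k X', ∀ b ∈ boxset k X', ∀ (r : ZMod N) (cc : ℕ → ℂ) (φ : ℕ → ℝ),
    (∀ j, ‖cc j‖ ≤ 1) → (∀ j, |φ j| ≤ U) → (∀ j, cc j ≠ 0 → V ≤ |φ j|) →
    ‖𝔼 n ∈ Ω, 𝔼 x, cube (F n) a b x * bphase X r cc φ x‖ < η

/-- Data of the degree lowering: `u` is an average of translates of `conj (𝔼_n F n)`. -/
structure DLData {N : ℕ} [NeZero N] {ι : Type} (Ω : Finset ι) (F : ι → ZMod N → ℂ)
    (κ : ZMod N → ℂ) (u : ZMod N → ℂ) : Prop where
  ne : Ω.Nonempty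
  F1 : ∀ n x, ‖F n x‖ ≤ 1
  κ1 : ∑ y, ‖κ y‖ ≤ 1
  rep : ∀ x, u x = ∑ y, κ y * conj (𝔼 n ∈ Ω, F n (x + y))

/-- local correlation of `f` along the top sequence with the phases `θ x` -/
def locCorr {m N : ℕ} [NeZero N] (S : Sys (m + 1)) (c : Fin (m + 1) → ℝ) (f : ZMod N → ℂ)
    (θ : ZMod N → Fin m → ℝ) (K : ℕ) (x : ZMod N) : ℝ :=
  𝔼 k ∈ S.I, ‖𝔼 j ∈ range K, f (x + (S.a c (Fin.last m) (k + j) : ZMod N)) *
    e (∑ i : Fin m, θ x i * S.P i.castSucc * (S.t (k + j)) ^ (c i.castSucc))‖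

end

end Pool.Agent.Helper57.NX
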