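import Pool.Agent.Helper57.NX.Defs2

/-!
# Project NX: definitions for the generalised von Neumann theorem (PET)
-/

set_option autoImplicit false

open Finset
open scoped BigOperators ComplexConjugate

namespace Pool.Agent.Helper57.NX

noncomputable section

/-- Formal integer combinations of iterated differences `Δ_{h_1} ... Δ_{h_b} a_i`;
the atom `([h_1,...,h_b], i)`. -/
abbrev Phi (m : ℕ) := (List ℕ × Fin m) →₀ ℤ

/-- the shift `τ_h`: `A_t ↦ A_t + A_{h::t}` -/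
def tau {m : ℕ} (h : ℕ) : Phi m →+ Phi m :=
  AddMonoidHom.id _ +
    Finsupp.mapDomain.addMonoidHom (fun s : List ℕ × Fin m => (h :: s.1, s.2))

/-- the filtration: combinations of at least `a`-fold differences -/
def VV {m : ℕ} (a : ℕ) : AddSubgroup (Phi m) :=
  (Finsupp.supported ℤ ℤ {s : List ℕ × Fin m | a ≤ s.1.length}).toAddSubgroup

/-- iterated differences of sequences -/
def dl : List ℕ → (ℕ → ℤ) → ℕ → ℤ
  | [], f, k => f k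
  | h :: t, f, k => dl t f (k + h) - dl t f k

/-- evaluation of a formal combination -/
def ev {m : ℕ} (a : Fin m → ℕ → ℤ) (p : Phi m) (k : ℕ) : ℤ :=
  p.sum fun s n => n * dl s.1 (a s.2) k

/-- iterated differences of real functions -/
def dlR : List ℕ → (ℝ → ℝ) → ℝ → ℝ
  | [], f, y => f y
  | h :: t, f, y => dlR t f (y + h) - dlR t f y

/-- falling factorial `γ (γ-1) ... (γ-b+1)` -/
def ff (γ : ℝ) (b : ℕ) : ℝ := ∏ i ∈ range b, (γ - i)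

/-- the model of the `b`-th derivative: `ff γ b * ((y+ρ)/D)^(γ-b) / D^b` -/
def mdl {m : ℕ} (S : Sys m) (γ : ℝ) (b : ℕ) (y : ℝ) : ℝ :=
  ff γ b * ((y + S.ρ) / S.D) ^ (γ - b) / S.D ^ b

/-- the `b`-th derivative of (the real version of) `p` -/
def jet {m : ℕ} (S : Sys m) (c : Fin m → ℝ) (b : ℕ) (p : Phi m) (y : ℝ) : ℝ :=
  p.sum fun s n => (n : ℝ) * dlR s.1 (fun z => S.P s.2 * mdl S (c s.2) b z) y

/-- `p` behaves like `Λ t^γ` up to an error `E`, for all derivatives of order `≤ B`, on `[D, Y]` -/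
def Typ {m : ℕ} (S : Sys m) (c : Fin m → ℝ) (B : ℕ) (Y : ℝ) (p : Phi m) (γ Λ E : ℝ) : Prop :=
  ∀ b ≤ B, ∀ y : ℝ, S.D ≤ y → y ≤ Y → |jet S c b p y - Λ * mdl S γ b y| ≤ E / S.D ^ b

/-- bookkeeping: total weight `≤ n`, differences of order `≤ n`, shifts `< M` -/
def Bd {m : ℕ} (M n : ℕ) (p : Phi m) : Prop :=
  (∑ s ∈ p.support, (p s).natAbs ≤ n) ∧ ∀ s ∈ p.support, s.1.length ≤ n ∧ ∀ h ∈ s.1, h < M

/-- typed with a coefficient of size `lam` up to `δ^{±n}`, relative error `w` -/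
def Tp {m : ℕ} (S : Sys m) (c : Fin m → ℝ) (δ : ℝ) (n B : ℕ) (Y γ lam w : ℝ) (p : Phi m) : Prop :=
  ∃ Λ : ℝ, δ ^ n * lam ≤ |Λ| ∧ |Λ| ≤ δ⁻¹ ^ n * lam ∧ Typ S c B Y p γ Λ (δ⁻¹ ^ n * lam * w)

/-- invariants during a round: `Lq` lower part (and the frame `0`), `Lg` upper part -/
structure TG {m : ℕ} (S : Sys m) (c : Fin m → ℝ) (δ : ℝ) (M n B : ℕ) (Y γ lam w : ℝ)
    (Lq Lg : List (Phi m)) : Prop where
  q : ∀ g ∈ Lg, ∀ p ∈ (0 : Phi m) :: Lq, Tp S c δ n B Y γ lam w (g - p)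
  g : ∀ g0 t, Lg = g0 :: t → ∀ g ∈ t, Tp S c δ n B Y (γ - 1) (lam * M / S.D) w (g - g0)
  bq : ∀ p ∈ Lq, Bd M n p
  bg : ∀ p ∈ Lg, Bd M n p
  lq : Lq.length ≤ n
  lg : Lg.length ≤ n
  ne : Lg ≠ []

/-- a cluster: all differences to the head `g0` are typed -/
structure Clu {m : ℕ} (S : Sys m) (c : Fin m → ℝ) (δ : ℝ) (M n B : ℕ) (Y γ lam w : ℝ)
    (g0 : Phi m) (t : List (Phi m)) : Prop where
  g : ∀ g ∈ t, Tp S c δ n B Y γ lam w (g - g0)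
  b0 : Bd M n g0
  bt : ∀ g ∈ t, Bd M n g
  ne : t ≠ []
  le : t.length ≤ n

/-- size conditions for the PET steps -/
structure Env {m : ℕ} (S : Sys m) (N : ℕ) (δ : ℝ) (M R : ℕ) (w : ℝ) (n : ℕ) : Prop where
  ρ0 : 0 ≤ S.ρ
  ρ1 : S.ρ ≤ 1
  D1 : 1 ≤ S.D
  δ0 : 0 < δ
  δ1 : δ ≤ 1 / 2
  u1 : S.D ≤ S.u
  u2 : (S.u : ℝ) + S.T ≤ 2 * S.D
  MT : (M : ℝ) ≤ δ ^ n * S.T
  M1 : δ⁻¹ ^ n ≤ M
  MD : (M : ℝ) / S.D ≤ w
  w1 : w ≤ δ ^ n
  P0 : ∀ i, 0 ≤ S.P i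
  PR : ∀ i, S.P i * ((M : ℝ) / S.D) ^ R ≤ w * S.Q
  wQ : 1 ≤ w * S.Q
  QN : (S.Q : ℝ) ≤ N

/-- form of a list of functions with formal shifts -/
def lform {m N : ℕ} [NeZero N] (S : Sys m) (c : Fin m → ℝ) (F0 : ZMod N → ℂ)
    (L : List ((ZMod N → ℂ) × Phi m)) : ℂ :=
  𝔼 k ∈ S.I, 𝔼 x : ZMod N, F0 x *
    (L.map fun fp => fp.1 (x + (ev (S.a c) fp.2 k : ZMod N))).prod

end

end Pool.Agent.Helper57.NX
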