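import Pool.Agent.Helper57.NX.Defs3

/-!
# Project MX (stage 2 of NX): natural exponents are allowed (definitions)
-/

set_option autoImplicit false

open Finset
open scoped BigOperators ComplexConjugate

namespace Pool.Agent.Helper57.NX

noncomputable section

/-- natural exponents -/
def IsN (x : ℝ) : Prop := ∃ n : ℕ, x = n

/-- exact form of the natural positions: `a i k = Q g (q k + r) ^ (c i)`, `q, g ≤ B` -/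
def IntOK {m : ℕ} (S : Sys m) (c : Fin m → ℝ) (B : ℝ) : Prop :=
  ∃ q r : ℕ, 1 ≤ q ∧ (q : ℝ) ≤ B ∧ r ≤ q ∧ S.ρ = (r : ℝ) / q ∧
    ∀ i, IsN (c i) → ∃ g : ℕ, 1 ≤ g ∧ (g : ℝ) ≤ B ∧ S.P i = S.Q * g * (q * S.D) ^ (c i)

/-- Size conditions (as `Good`, with `Q ≤ D ^ (5/2 + x)`). -/
structure GoodM {m : ℕ} (S : Sys m) (c : Fin m → ℝ) (N : ℕ) (x : ℝ) : Prop where
  ρ0 : 0 ≤ S.ρ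
  ρ1 : S.ρ ≤ 1
  Q1 : S.D ^ (2 : ℝ) ≤ S.Q
  Q2 : (S.Q : ℝ) ≤ S.D ^ (5 / 2 + x : ℝ)
  P1 : ∀ i, S.Q * S.D ^ (c i - x) ≤ S.P i
  P2 : ∀ i, S.P i ≤ S.Q * S.D ^ (c i + x)
  N1 : ∀ i, S.P i ≤ N * S.D ^ x
  N2 : (S.Q : ℝ) ≤ N
  u1 : S.D ≤ S.u
  u2 : (S.u : ℝ) + S.T ≤ 2 * S.D
  T1 : S.D ^ (1 - x) ≤ S.T

/-- the class `k = q k' + κ` (interior of the interval) -/
def Sys.cls {m : ℕ} (S : Sys m) (q κ : ℕ) : Sys m :=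
  ⟨S.D / q, (κ + S.ρ) / q, S.Q, S.u / q + 1, S.T / q - 2, S.P⟩

/-- Forward average along a progression with difference `G`. -/
def AP {N : ℕ} (G L : ℕ) (f : ZMod N → ℂ) (x : ZMod N) : ℂ :=
  𝔼 a ∈ range L, f (x + ((G * a : ℕ) : ZMod N))

/-- Backward average along a progression with difference `G`. -/
def APb {N : ℕ} (G L : ℕ) (f : ZMod N → ℂ) (x : ZMod N) : ℂ :=
  𝔼 a ∈ range L, f (x - ((G * a : ℕ) : ZMod N))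

/-- The conclusion of the inverse theorem at position `i`. -/
def Info {m N : ℕ} [NeZero N] (S : Sys m) (c : Fin m → ℝ) (ε B η : ℝ) (i : Fin m)
    (f : ZMod N → ℂ) : Prop :=
  (¬ IsN (c i) → ∀ L : ℕ, 1 ≤ L → (L : ℝ) ≤ S.P i * S.D ^ (-ε) → η ≤ nrm (A L f)) ∧
  (IsN (c i) → ∃ g : ℕ, 1 ≤ g ∧ (g : ℝ) ≤ B ∧ ∀ L : ℕ, 1 ≤ L →
    (g : ℝ) * S.Q * L ≤ S.P i * S.D ^ (-ε) → η ≤ nrm (AP (g * S.Q) L f))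

/-- averages over windows in progressions with difference `q` -/
def win {m : ℕ} (S : Sys m) (c : Fin m → ℝ) (h : ℕ → ℂ) (θ : Fin m → ℝ) (q K : ℕ) : ℝ :=
  𝔼 k ∈ S.I, ‖𝔼 j ∈ range K, h (k + q * j) *
    e (∑ i, θ i * S.P i * (S.t (k + q * j)) ^ (c i))‖

/-- `U` at level `m` : a large form implies information on every `f i`. -/
def UPM (m : ℕ) (c : Fin m → ℝ) (ε : ℝ) : Prop :=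
  ∃ x0 : ℝ, 0 < x0 ∧ ∃ C : ℕ, ∃ σ : ℝ, 0 < σ ∧ ∃ D0 : ℝ,
  ∀ (S : Sys m) (N : ℕ) [NeZero N], D0 ≤ S.D → GoodM S c N x0 →
  ∀ δ : ℝ, S.D ^ (-σ) ≤ δ → δ ≤ 1 / 2 → IntOK S c δ⁻¹ →
  ∀ (f0 : ZMod N → ℂ) (f : Fin m → ZMod N → ℂ),
  Adm δ⁻¹ S.Q f0 → (∀ i, Adm δ⁻¹ S.Q (f i)) →
  δ ≤ ‖form S c 1 f0 f‖ →
  ∀ i, Info S c ε (δ⁻¹ ^ C) (δ ^ C) i (f i)

/-- `D` at level `m` : with arbitrary weights `h`, windows in progressions. -/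
def DPM (m : ℕ) (c : Fin m → ℝ) (ε : ℝ) : Prop :=
  ∃ x0 : ℝ, 0 < x0 ∧ ∃ C : ℕ, ∃ σ : ℝ, 0 < σ ∧ ∃ D0 : ℝ,
  ∀ (S : Sys m) (N : ℕ) [NeZero N], D0 ≤ S.D → GoodM S c N x0 →
  ∀ δ : ℝ, S.D ^ (-σ) ≤ δ → δ ≤ 1 / 2 → IntOK S c δ⁻¹ →
  ∀ (h : ℕ → ℂ) (f0 : ZMod N → ℂ) (f : Fin m → ZMod N → ℂ),
  (∀ k, ‖h k‖ ≤ 1) → Adm δ⁻¹ S.Q f0 → (∀ i, Adm δ⁻¹ S.Q (f i)) →
  δ ≤ ‖form S c h f0 f‖ →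
  ∃ (q : ℕ) (θ : Fin m → ℝ), 1 ≤ q ∧ (q : ℝ) ≤ δ⁻¹ ^ C ∧ (∀ i, |θ i| ≤ δ⁻¹ ^ C / S.Q) ∧
    ∀ K : ℕ, 1 ≤ K → (K : ℝ) ≤ S.D ^ (1 - ε) → δ ^ C ≤ win S c h θ q K

/-- the top function is smooth at scale `Q D^s`: plain conclusion for the top function -/
def TopPM (m : ℕ) (c : Fin (m + 1) → ℝ) (s ε : ℝ) : Prop :=
  ∃ x0 : ℝ, 0 < x0 ∧ ∃ C : ℕ, ∃ σ : ℝ, 0 < σ ∧ ∃ D0 : ℝ,
  ∀ (S : Sys (m + 1)) (N : ℕ) [NeZero N], D0 ≤ S.D → GoodM S c N x0 →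
  ∀ δ : ℝ, S.D ^ (-σ) ≤ δ → δ ≤ 1 / 2 → IntOK S c δ⁻¹ →
  ∀ X : ℝ, (S.Q : ℝ) ≤ X → S.Q * S.D ^ (s - σ) ≤ X →
  ∀ (f0 : ZMod N → ℂ) (f : Fin (m + 1) → ZMod N → ℂ),
  Adm δ⁻¹ S.Q f0 → (∀ i, Adm δ⁻¹ S.Q (f i)) → Adm δ⁻¹ X (f (Fin.last m)) →
  δ ≤ ‖form S c 1 f0 f‖ →
  ∀ L : ℕ, 1 ≤ L → (L : ℝ) ≤ S.P (Fin.last m) * S.D ^ (-ε) → δ ^ C ≤ nrm (A L (f (Fin.last m)))

/-- the top function is smooth at scale `Q D^s`: information at position `i` -/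
def InfoP (m : ℕ) (c : Fin (m + 1) → ℝ) (s ε : ℝ) (i : Fin (m + 1)) : Prop :=
  ∃ x0 : ℝ, 0 < x0 ∧ ∃ C : ℕ, ∃ σ : ℝ, 0 < σ ∧ ∃ D0 : ℝ,
  ∀ (S : Sys (m + 1)) (N : ℕ) [NeZero N], D0 ≤ S.D → GoodM S c N x0 →
  ∀ δ : ℝ, S.D ^ (-σ) ≤ δ → δ ≤ 1 / 2 → IntOK S c δ⁻¹ →
  ∀ X : ℝ, (S.Q : ℝ) ≤ X → S.Q * S.D ^ (s - σ) ≤ X →
  ∀ (f0 : ZMod N → ℂ) (f : Fin (m + 1) → ZMod N → ℂ),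
  Adm δ⁻¹ S.Q f0 → (∀ i, Adm δ⁻¹ S.Q (f i)) → Adm δ⁻¹ X (f (Fin.last m)) →
  δ ≤ ‖form S c 1 f0 f‖ → Info S c ε (δ⁻¹ ^ C) (δ ^ C) i (f i)

/-- structured function at position `i`: a character times a function which is nearly constant
along progressions with difference `G` -/
def StrF {m N : ℕ} [NeZero N] (S : Sys m) (c : Fin m → ℝ) (ε B Xi : ℝ) (i : Fin m)
    (ψ : ZMod N → ℂ) : Prop :=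
  ∃ (b : ℤ) (G : ℕ) (κ : ZMod N → ℂ), |(b : ℝ) / N| ≤ B / Xi ∧ 1 ≤ G ∧
    (G = 1 ∨ (IsN (c i) ∧ ∃ g : ℕ, 1 ≤ g ∧ (g : ℝ) ≤ B ∧ G = g * S.Q)) ∧
    (∀ x, ‖κ x‖ ≤ 1) ∧
    (∀ x (t : ℤ), ‖κ (x + (((G : ℤ) * t : ℤ) : ZMod N)) - κ x‖ ≤
      B * (|(t : ℝ)| * G) / (S.P i * S.D ^ (-ε))) ∧
    ∀ x, ψ x = e ((b : ℝ) / N * (x.val : ℝ)) * κ x

/-- weak replacement of the function at position `i` by a structured function -/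
def StrP (m : ℕ) (c : Fin (m + 1) → ℝ) (s ε : ℝ) (i : Fin (m + 1)) : Prop :=
  ∃ x0 : ℝ, 0 < x0 ∧ ∃ C : ℕ, ∃ σ : ℝ, 0 < σ ∧ ∃ D0 : ℝ,
  ∀ (S : Sys (m + 1)) (N : ℕ) [NeZero N], D0 ≤ S.D → GoodM S c N x0 →
  ∀ δ : ℝ, S.D ^ (-σ) ≤ δ → δ ≤ 1 / 2 → IntOK S c δ⁻¹ →
  ∀ X : ℝ, (S.Q : ℝ) ≤ X → S.Q * S.D ^ (s - σ) ≤ X →
  ∀ (h : ℕ → ℂ) (f0 : ZMod N → ℂ) (f : Fin (m + 1) → ZMod N → ℂ),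
  (∀ k, ‖h k‖ ≤ 1) → Adm δ⁻¹ S.Q f0 → (∀ i, Adm δ⁻¹ S.Q (f i)) →
  Adm δ⁻¹ X (f (Fin.last m)) →
  δ ≤ ‖form S c h f0 f‖ →
  ∃ ψ : ZMod N → ℂ, Adm (δ⁻¹ ^ C) S.Q ψ ∧ StrF S c ε (δ⁻¹ ^ C) S.Q i ψ ∧
    δ ^ C ≤ ‖form S c h f0 (Function.update f i ψ)‖

/-- weak replacement of the (smooth) top function, plain version -/
def StrT (m : ℕ) (c : Fin (m + 1) → ℝ) (s ε : ℝ) : Prop :=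
  ∃ x0 : ℝ, 0 < x0 ∧ ∃ C : ℕ, ∃ σ : ℝ, 0 < σ ∧ ∃ D0 : ℝ,
  ∀ (S : Sys (m + 1)) (N : ℕ) [NeZero N], D0 ≤ S.D → GoodM S c N x0 →
  ∀ δ : ℝ, S.D ^ (-σ) ≤ δ → δ ≤ 1 / 2 → IntOK S c δ⁻¹ →
  ∀ X : ℝ, (S.Q : ℝ) ≤ X → S.Q * S.D ^ (s - σ) ≤ X → X ≤ S.Q * S.D ^ s →
  ∀ (h : ℕ → ℂ) (f0 : ZMod N → ℂ) (f : Fin (m + 1) → ZMod N → ℂ),
  (∀ k, ‖h k‖ ≤ 1) → Adm δ⁻¹ S.Q f0 → (∀ i, Adm δ⁻¹ S.Q (f i)) →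
  Adm δ⁻¹ X (f (Fin.last m)) →
  δ ≤ ‖form S c h f0 f‖ →
  ∃ ψ : ZMod N → ℂ, Adm (δ⁻¹ ^ C) X ψ ∧ StrF S c ε (δ⁻¹ ^ C) X (Fin.last m) ψ ∧
    δ ^ C ≤ ‖form S c h f0 (Function.update f (Fin.last m) ψ)‖

/-- the top function is smooth at scale `X ≈ Q D^s`: conclusion of `D` -/
def DsPM (m : ℕ) (c : Fin (m + 1) → ℝ) (s ε : ℝ) : Prop :=
  ∃ x0 : ℝ, 0 < x0 ∧ ∃ C : ℕ, ∃ σ : ℝ, 0 < σ ∧ ∃ D0 : ℝ,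
  ∀ (S : Sys (m + 1)) (N : ℕ) [NeZero N], D0 ≤ S.D → GoodM S c N x0 →
  ∀ δ : ℝ, S.D ^ (-σ) ≤ δ → δ ≤ 1 / 2 → IntOK S c δ⁻¹ →
  ∀ X : ℝ, (S.Q : ℝ) ≤ X → S.Q * S.D ^ (s - σ) ≤ X → X ≤ S.Q * S.D ^ s →
  ∀ (h : ℕ → ℂ) (f0 : ZMod N → ℂ) (f : Fin (m + 1) → ZMod N → ℂ),
  (∀ k, ‖h k‖ ≤ 1) → Adm δ⁻¹ S.Q f0 → (∀ i, Adm δ⁻¹ S.Q (f i)) →
  Adm δ⁻¹ X (f (Fin.last m)) →
  δ ≤ ‖form S c h f0 f‖ →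
  ∃ (q : ℕ) (θ : Fin (m + 1) → ℝ), 1 ≤ q ∧ (q : ℝ) ≤ δ⁻¹ ^ C ∧
    (∀ i, |θ i| ≤ δ⁻¹ ^ C / S.Q) ∧ |θ (Fin.last m)| ≤ δ⁻¹ ^ C / X ∧
    ∀ K : ℕ, 1 ≤ K → (K : ℝ) ≤ S.D ^ (1 - ε) → δ ^ C ≤ win S c h θ q K

/-- block phases with frequencies far from `0` (natural top: far from `a / (q Q)`) have a small
form -/
def LPPM (m : ℕ) (c : Fin (m + 1) → ℝ) (s : ℝ) : Prop :=
  ∃ x0 : ℝ, 0 < x0 ∧ ∃ C : ℕ, ∃ σ : ℝ, 0 < σ ∧ ∃ D0 : ℝ,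
  ∀ (S : Sys (m + 1)) (N : ℕ) [NeZero N], D0 ≤ S.D → GoodM S c N x0 →
  ∀ δ : ℝ, S.D ^ (-σ) ≤ δ → δ ≤ 1 / 2 → IntOK S c δ⁻¹ →
  ∀ X : ℕ, S.Q ≤ X → S.Q * S.D ^ (s - σ) ≤ (X : ℝ) → (X : ℝ) ≤ S.Q * S.D ^ s →
  ∀ (f0 : ZMod N → ℂ) (f : Fin m → ZMod N → ℂ),
  Adm δ⁻¹ S.Q f0 → (∀ i, Adm δ⁻¹ S.Q (f i)) →
  ∀ (r : ZMod N) (cc : ℕ → ℂ) (φ : ℕ → ℝ), (∀ j, ‖cc j‖ ≤ 1) → (∀ j, |φ j| ≤ δ⁻¹ / S.Q) →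
  (∀ j, cc j ≠ 0 → δ⁻¹ ^ C / X ≤ |φ j| ∧ (IsN (c (Fin.last m)) → ∀ (a : ℤ) (q : ℕ), 1 ≤ q →
    (q : ℝ) ≤ δ⁻¹ ^ C → δ⁻¹ ^ C / X ≤ |φ j - a / (q * S.Q)|)) →
  ‖form S c 1 f0 (Fin.snoc (α := fun _ => ZMod N → ℂ) f (bphase X r cc φ))‖ < δ

/-- local correlation along the top sequence, windows in progressions with difference `q` -/
def locCorrM {m N : ℕ} [NeZero N] (S : Sys (m + 1)) (c : Fin (m + 1) → ℝ) (f : ZMod N → ℂ)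
    (θ : ZMod N → Fin m → ℝ) (q K : ℕ) (x : ZMod N) : ℝ :=
  𝔼 k ∈ S.I, ‖𝔼 j ∈ range K, f (x + (S.a c (Fin.last m) (k + q * j) : ZMod N)) *
    e (∑ i : Fin m, θ x i * S.P i.castSucc * (S.t (k + q * j)) ^ (c i.castSucc))‖

/-! ### the last stage for a natural top exponent -/

/-- cube along a progression with difference `G` -/
def cubeS {N k : ℕ} (G : ℕ) (f : ZMod N → ℂ) (a b : Fin k → ℕ) (x : ZMod N) : ℂ :=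
  ∏ ω : Fin k → Bool, cjj ω (f (x + ((G * tot (sel ω a b) : ℕ) : ZMod N)))

/-- box norm along a progression with difference `G` -/
def BoxS {N : ℕ} [NeZero N] (G k X : ℕ) (f : ZMod N → ℂ) : ℝ :=
  (𝔼 a ∈ boxset k X, 𝔼 b ∈ boxset k X, 𝔼 x : ZMod N, cubeS G f a b x).re

/-- the generalised von Neumann theorem without smoothness, natural top exponent -/
def GNC0P (m : ℕ) (c : Fin (m + 1) → ℝ) (κ0 : ℝ) : Prop :=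
  ∃ x0 : ℝ, 0 < x0 ∧ ∃ r C : ℕ, ∃ σ : ℝ, 0 < σ ∧ ∃ D0 : ℝ,
  ∀ (S : Sys (m + 1)) (N : ℕ) [NeZero N], D0 ≤ S.D → GoodM S c N x0 →
  ∀ δ : ℝ, S.D ^ (-σ) ≤ δ → δ ≤ 1 / 2 → IntOK S c δ⁻¹ →
  ∀ (f0 : ZMod N → ℂ) (f : Fin (m + 1) → ZMod N → ℂ),
  Adm δ⁻¹ S.Q f0 → (∀ i, Adm δ⁻¹ S.Q (f i)) →
  δ ≤ ‖form S c 1 f0 f‖ →
  ∃ g : ℕ, 1 ≤ g ∧ (g : ℝ) ≤ δ⁻¹ ^ C ∧
    ∀ X1 : ℕ, 1 ≤ X1 → (X1 : ℝ) ≤ S.D ^ κ0 → δ ^ C ≤ BoxS (g * S.Q) r X1 (f (Fin.last m))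

/-- Hypothesis of the degree lowering with rational exceptions: cubes of `F n` have a small form
against block phases whose frequencies are far from all `a / q`, `q ≤ B`. -/
def LPhR {N : ℕ} [NeZero N] {ι : Type} (Ω : Finset ι) (F : ι → ZMod N → ℂ) (k X' X : ℕ)
    (V η B : ℝ) : Prop :=
  ∀ a ∈ boxset k X', ∀ b ∈ boxset k X', ∀ (r : ZMod N) (cc : ℕ → ℂ) (φ : ℕ → ℝ),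
    (∀ j, ‖cc j‖ ≤ 1) →
    (∀ j, cc j ≠ 0 → ∀ (p : ℤ) (q : ℕ), 1 ≤ q → (q : ℝ) ≤ B → V ≤ |φ j - p / q|) →
    ‖𝔼 n ∈ Ω, 𝔼 x, cube (F n) a b x * bphase X r cc φ x‖ < η

/-- the index set and the functions on the coset `b + G y` (dual functions smeared at scale `Y`) -/
def cosF {m N : ℕ} [NeZero N] (S : Sys (m + 1)) (c : Fin (m + 1) → ℝ) (f0 : ZMod N → ℂ)
    (f : Fin m → ZMod N → ℂ) (G b : ℕ) (n : ℕ × ℕ × ℕ) (y : ZMod (N / G)) : ℂ :=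
  let x : ZMod N := ((b + G * y.val + n.2.1 : ℕ) : ZMod N) - (n.2.2 : ZMod N) -
    (S.a c (Fin.last m) n.1 : ZMod N)
  f0 x * ∏ i : Fin m, f i (x + (S.a c i.castSucc n.1 : ZMod N))

/-- weak replacement of the top function by a function nearly constant along `g Q` -/
def WT0P (m : ℕ) (c : Fin (m + 1) → ℝ) (κ1 : ℝ) : Prop :=
  ∃ x0 : ℝ, 0 < x0 ∧ ∃ C : ℕ, ∃ σ : ℝ, 0 < σ ∧ ∃ D0 : ℝ,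
  ∀ (S : Sys (m + 1)) (N : ℕ) [NeZero N], D0 ≤ S.D → GoodM S c N x0 →
  ∀ δ : ℝ, S.D ^ (-σ) ≤ δ → δ ≤ 1 / 2 → IntOK S c δ⁻¹ →
  ∀ (f0 : ZMod N → ℂ) (f : Fin (m + 1) → ZMod N → ℂ),
  Adm δ⁻¹ S.Q f0 → (∀ i, Adm δ⁻¹ S.Q (f i)) →
  δ ≤ ‖form S c 1 f0 f‖ →
  ∃ (g : ℕ) (ψ : ZMod N → ℂ), 1 ≤ g ∧ (g : ℝ) ≤ δ⁻¹ ^ C ∧ Adm (δ⁻¹ ^ C) S.Q ψ ∧
    (∀ x (t : ℤ), ‖ψ (x + ((((g * S.Q : ℕ) : ℤ) * t : ℤ) : ZMod N)) - ψ x‖ ≤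
      4 * |(t : ℝ)| / S.D ^ κ1) ∧
    δ ^ C ≤ ‖form S c 1 f0 (Function.update f (Fin.last m) ψ)‖

end

end Pool.Agent.Helper57.NX
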