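import Pool.Agent.Helper15.NX.Lpp
import Pool.Agent.Helper28.NX.Base
import Pool.Agent.Helper30.NX.UsOfTop
import Pool.Agent.Helper38.NX.NxFinal
import Pool.Agent.Helper40.NX.MainInd
import Pool.Agent.Helper59.NX.Es0
import Pool.Agent.Helper61.NX.DsOfUs
import Pool.Agent.Helper61.NX.Pattern
import Pool.Agent.Helper64.NX.LpAlign
import Pool.Agent.Helper67.NX.TopStep
import Pool.Agent.Helper82.NX.Gnc
import Pool.Agent.Helper99.NX.LpLocal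

/-!
# Project NX: assembly of stage 1
-/

set_option autoImplicit false

open Finset
open scoped BigOperators ComplexConjugate

namespace Pool.Agent.Helper57.NX

/-- NX-16 -/
theorem lpp (hES : ES0) (m : ℕ) (c : Fin (m + 1) → ℝ) (hc : StrictMono c) (hc0 : ∀ i, 0 < c i)
    (hcn : ∀ i (n : ℕ), c i ≠ n) (s : ℝ) (hs0 : 0 ≤ s) (hs : s < c (Fin.last m))
    (hT : ∀ ε : ℝ, 0 < ε → TopP m c s ε)
    (hD : ∀ ε : ℝ, 0 < ε → DsP m c s ε) : LPP m c s :=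
  lpp_core m c s hs (fun ε hε => lp_align m c s ε hs0 hε (hT ε hε))
    (lp_local hES m c hc hc0 hcn s hs0 hs hD)

/-- NX-29 -/
theorem main_induction (m : ℕ) (c : Fin m → ℝ) (hc : StrictMono c)
    (hc0 : ∀ i, 0 < c i) (hcn : ∀ i (n : ℕ), c i ≠ n) :
    (∀ ε : ℝ, 0 < ε → UP m c ε) ∧ (∀ ε : ℝ, 0 < ε → DP m c ε) :=
  main_induction_of
    (fun m c hc hc0 hcn hD => base es0 m c hc hc0 hcn hD)
    (fun m c hc hc0 hcn εb hεb => gnc m c hc hc0 hcn εb hεb)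
    (fun m c hc hc0 s hs0 hU hT => us_of_top m c hc hc0 s hs0 hU hT)
    (fun m c hc0 s hs0 hs h => ds_of_us m c hc0 s hs0 hs h)
    (fun m c hc hc0 hcn s hs0 hs hT hD => lpp es0 m c hc hc0 hcn s hs0 hs hT hD)
    (fun m c hc hc0 s s' ε hs0 hss hs' hε hG hL hT =>
      top_step m c hc hc0 s s' ε hs0 hss hs' hε hG hL hT)
    m c hc hc0 hcn

/-- NX-34: arbitrary lists of non-integer exponents, arbitrary dense sets of primes -/
theorem nx_final (A : Set ℕ) (hA : ∀ p ∈ A, p.Prime)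
    (hd : ∃ δ : ℝ, 0 < δ ∧ ∃ᶠ x : ℕ in Filter.atTop,
      δ * (Nat.primeCounting x : ℝ) ≤ ({p ∈ A | p ≤ x}.ncard : ℝ))
    (l : ℕ) (c : Fin l → ℝ) (hc : ∀ i, 0 < c i ∧ ∀ n : ℕ, c i ≠ n) (N : ℕ) :
    ∃ m ∈ A, ∃ n : ℕ, N ≤ n ∧ ∀ i, m + ⌊(n : ℝ) ^ c i⌋₊ ∈ A :=
  nx_final_of (fun l c hc hc0 hcn => nx_pattern es0 l c hc hc0 hcn
    (main_induction l c hc hc0 hcn).1) A hA hd l c hc N

end Pool.Agent.Helper57.NX
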